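import Pool.Agent.helper44.EX.Spec
import Pool.Agent.helper98.ILF.Lift

/-!
# Project ex: OM0, the derivative at the origin of a map which omits a value
-/

set_option autoImplicit false

open Complex Metric Set Filter Topology MeasureTheory Pool.Agent.helper98.ILF

noncomputable section

namespace EX

/-- the real inequality -/
theorem OM0_real (x y D : ℝ) (hx : 0 ≤ x) (hxy : x ≤ y) (hy : y < 1)
    (hD : (1 - (x ^ 2) ^ 2) * D ≤ 2 * x * (1 - x ^ 2)) : D ≤ 2 * y / (1 + y ^ 2) := by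
  have hx1 : x < 1 := lt_of_le_of_lt hxy hy
  have h1 : 0 < 1 - x ^ 2 := by nlinarith
  have h2 : (1 + x ^ 2) * D ≤ 2 * x := by
    have h3 : (1 - x ^ 2) * ((1 + x ^ 2) * D) ≤ (1 - x ^ 2) * (2 * x) := by
      calc (1 - x ^ 2) * ((1 + x ^ 2) * D) = (1 - (x ^ 2) ^ 2) * D := by ring
        _ ≤ 2 * x * (1 - x ^ 2) := hD
        _ = (1 - x ^ 2) * (2 * x) := by ring
    exact le_of_mul_le_mul_left h3 h1
  have h4 : 2 * x * (1 + y ^ 2) ≤ 2 * y * (1 + x ^ 2) := by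
    have : 0 ≤ (y - x) * (1 - x * y) := by
      refine mul_nonneg (by linarith) ?_
      nlinarith
    nlinarith
  rw [le_div_iff₀ (by positivity)]
  have h5 : 0 < 1 + x ^ 2 := by positivity
  have h6 : (1 + x ^ 2) * (D * (1 + y ^ 2)) ≤ (1 + x ^ 2) * (2 * y) := by
    calc (1 + x ^ 2) * (D * (1 + y ^ 2)) = ((1 + x ^ 2) * D) * (1 + y ^ 2) := by ring
      _ ≤ (2 * x) * (1 + y ^ 2) := mul_le_mul_of_nonneg_right h2 (by positivity)
      _ ≤ 2 * y * (1 + x ^ 2) := h4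
      _ = (1 + x ^ 2) * (2 * y) := by ring
  exact le_of_mul_le_mul_left h6 h5

theorem OM0 (hMOB : MOB_stmt) (hSPK : SPK_stmt) : OM0_stmt := by
  intro δ θ b hδ0 hδ1 hθd hθm hθ0 hb hbo
  have h0 : (0 : ℂ) ∈ ball (0 : ℂ) 1 := mem_ball_self one_pos
  have hbD : b ∈ ball (0 : ℂ) 1 := mem_ball_zero_iff.2 (lt_of_le_of_lt hb hδ1)
  have hnb : -b ∈ ball (0 : ℂ) 1 := by
    rw [mem_ball_zero_iff, norm_neg]
    exact mem_ball_zero_iff.1 hbD
  obtain ⟨hden, hdf, hmt, hinj, ht0, htb, -⟩ := hMOB (-b) hnb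
  rw [neg_neg] at htb
  set F : ℂ → ℂ := fun z => tau (-b) (θ z) with hF
  have hFd : DifferentiableOn ℂ F (ball 0 1) := hdf.comp hθd hθm
  have hFm : MapsTo F (ball 0 1) (ball 0 1) := hmt.comp hθm
  have hFne : ∀ z ∈ ball (0 : ℂ) 1, F z ≠ 0 := by
    intro z hz h
    have h1 : θ z = b := hinj (hθm hz) hbD (by
      show tau (-b) (θ z) = tau (-b) b
      rw [htb]
      exact h)
    exact hbo ⟨z, hz, h1⟩
  have hF0 : F 0 = -b := by
    show tau (-b) (θ 0) = -b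
    rw [hθ0, ht0]
  obtain ⟨u, hu⟩ := IsAlgClosed.exists_pow_nat_eq (-b) (n := 2) two_pos
  obtain ⟨s, hsd, hs0, hs⟩ := Pool.Agent.helper98.ILF.exists_lift_pow (n := 2) two_ne_zero
    (u := u) one_pos hFd hFne (by rw [hu, hF0])
  have hsm : MapsTo s (ball 0 1) (ball 0 1) := by
    intro z hz
    rw [mem_ball_zero_iff]
    have h1 := hs z hz
    have h2 : ‖s z‖ ^ 2 < 1 := by
      rw [← norm_pow, h1]
      exact mem_ball_zero_iff.1 (hFm hz)
    by_contra h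
    push Not at h
    nlinarith
  have hsp := (hSPK s hsd hsm).2
  -- derivatives
  have hnhd : ball (0 : ℂ) 1 ∈ 𝓝 (0 : ℂ) := ball_mem_nhds _ one_pos
  have hsD : HasDerivAt s (deriv s 0) 0 := ((hsd 0 h0).differentiableAt hnhd).hasDerivAt
  have hθD : HasDerivAt θ (deriv θ 0) 0 := ((hθd 0 h0).differentiableAt hnhd).hasDerivAt
  have hF1 : HasDerivAt F (2 * s 0 * deriv s 0) 0 := by
    have h1 : HasDerivAt (fun z => s z ^ 2) (2 * s 0 * deriv s 0) 0 := by
      have h2 := hsD.mul hsD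
      have h3 : (fun z => s z ^ 2) = s * s := by
        funext z
        rw [Pi.mul_apply]
        ring
      rw [h3]
      have h4 : 2 * s 0 * deriv s 0 = deriv s 0 * s 0 + s 0 * deriv s 0 := by ring
      rw [h4]
      exact h2
    refine h1.congr_of_eventuallyEq ?_
    filter_upwards [hnhd] with z hz
    exact (hs z hz).symm
  have hF2 : HasDerivAt F ((1 - b * (starRingEnd ℂ) b) * deriv θ 0) 0 := by
    have h1 : HasDerivAt (fun z => (θ z + -b) / (1 + (starRingEnd ℂ) (-b) * θ z))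
        ((deriv θ 0 * (1 + (starRingEnd ℂ) (-b) * θ 0) -
          (θ 0 + -b) * ((starRingEnd ℂ) (-b) * deriv θ 0)) /
          (1 + (starRingEnd ℂ) (-b) * θ 0) ^ 2) 0 := by
      refine (hθD.add_const (-b)).div ((hθD.const_mul _).const_add 1) ?_
      rw [hθ0, mul_zero, add_zero]
      exact one_ne_zero
    have h2 : ((deriv θ 0 * (1 + (starRingEnd ℂ) (-b) * θ 0) -
          (θ 0 + -b) * ((starRingEnd ℂ) (-b) * deriv θ 0)) /
          (1 + (starRingEnd ℂ) (-b) * θ 0) ^ 2) = (1 - b * (starRingEnd ℂ) b) * deriv θ 0 := by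
      rw [hθ0, map_neg]
      simp
      ring
    rw [h2] at h1
    exact h1
  have hEq := hF1.unique hF2
  have hs0n : ‖s 0‖ ^ 2 = ‖b‖ := by
    rw [hs0, ← norm_pow, hu, norm_neg]
  have hbb : ‖(1 - b * (starRingEnd ℂ) b : ℂ)‖ = 1 - ‖b‖ ^ 2 := by
    have h1 : (1 - b * (starRingEnd ℂ) b : ℂ) = ((1 - ‖b‖ ^ 2 : ℝ) : ℂ) := by
      rw [Complex.mul_conj']
      push_cast
      ring
    rw [h1, Complex.norm_real, Real.norm_of_nonneg]
    have := mem_ball_zero_iff.1 hbD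
    nlinarith [norm_nonneg b]
  have hN := congrArg norm hEq
  rw [norm_mul, norm_mul, norm_mul, hbb, Complex.norm_two] at hN
  rw [hs0n] at hsp
  have hD : (1 - (‖s 0‖ ^ 2) ^ 2) * ‖deriv θ 0‖ ≤ 2 * ‖s 0‖ * (1 - ‖s 0‖ ^ 2) := by
    rw [hs0n, ← hN]
    exact mul_le_mul_of_nonneg_left hsp (by positivity)
  have hle : ‖s 0‖ ≤ Real.sqrt δ := by
    refine Real.le_sqrt_of_sq_le ?_
    rw [hs0n]
    exact hb
  have hsq1 : Real.sqrt δ < 1 := by
    rw [Real.sqrt_lt' one_pos]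
    linarith
  have := OM0_real ‖s 0‖ (Real.sqrt δ) ‖deriv θ 0‖ (norm_nonneg _) hle hsq1 hD
  rwa [Real.sq_sqrt hδ0] at this

end EX
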